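import Pool.Agent.Lib_helper45.G56.Fin
import Pool.Agent.Lib_helper59.A1.Top
import Pool.Agent.Lib_helper31.GC34.Main
import Pool.Agent.Lib_helper29.MOD.Main23

/-!
# The shape of the hand-in: all states, `α` in `(0,4]`, `[5,6]`, resp. `(0,6]`
-/

set_option autoImplicit false

namespace Pool.Agent.Lib_helper45.G56

open Pool.Agent.Lib_helper98.Renyi Pool.Agent.Lib_helper98.GC34

/-- `(0,2] ∪ [3,4] ∪ [5,6]` and `[2,3]` -/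
theorem all_of_strict56 (h56 : ∀ α : ℝ, 5 < α → α < 6 → Strict α)
    {b₁ b₂ : Type} [Fintype b₁] [DecidableEq b₁] [Fintype b₂] [DecidableEq b₂]
    (σ₁ : Fin 2 → Matrix b₁ b₁ ℂ) (σ₂ : Fin 2 → Matrix b₂ b₂ ℂ)
    (h₁ : ∀ x, IsDensity (σ₁ x)) (h₂ : ∀ x, IsDensity (σ₂ x)) (α : ℝ) :
    ((0 < α ∧ α ≤ 2) ∨ (3 ≤ α ∧ α ≤ 4) ∨ (5 ≤ α ∧ α ≤ 6) →
        Hsum α σ₁ σ₂ ≤ Fval α σ₁ σ₂) ∧
      (2 ≤ α ∧ α ≤ 3 → Fval α σ₁ σ₂ ≤ Hsum α σ₁ σ₂) := by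
  refine ⟨?_, fun h => Pool.Agent.RC.states23 h₁ h₂ α h.1 h.2⟩
  rintro (⟨h0, h2⟩ | ⟨h3, h4⟩ | ⟨h5, h6⟩)
  · exact Pool.Agent.A1W.states_all h₁ h₂ α h0 h2
  · exact states_of_strict Pool.Agent.GC34.strict34 h₁ h₂ α h3 h4
  · exact states_Icc (by norm_num) (by norm_num) h56 h₁ h₂ α h5 h6

/-- `(0,2] ∪ [3,6]` and `[2,3]` -/
theorem all_of_strict456 (h45 : ∀ α : ℝ, 4 < α → α < 5 → Strict α)
    (h56 : ∀ α : ℝ, 5 < α → α < 6 → Strict α)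
    {b₁ b₂ : Type} [Fintype b₁] [DecidableEq b₁] [Fintype b₂] [DecidableEq b₂]
    (σ₁ : Fin 2 → Matrix b₁ b₁ ℂ) (σ₂ : Fin 2 → Matrix b₂ b₂ ℂ)
    (h₁ : ∀ x, IsDensity (σ₁ x)) (h₂ : ∀ x, IsDensity (σ₂ x)) (α : ℝ) :
    ((0 < α ∧ α ≤ 2) ∨ (3 ≤ α ∧ α ≤ 6) → Hsum α σ₁ σ₂ ≤ Fval α σ₁ σ₂) ∧
      (2 ≤ α ∧ α ≤ 3 → Fval α σ₁ σ₂ ≤ Hsum α σ₁ σ₂) := by
  refine ⟨?_, fun h => Pool.Agent.RC.states23 h₁ h₂ α h.1 h.2⟩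
  rintro (⟨h0, h2⟩ | ⟨h3, h6⟩)
  · exact Pool.Agent.A1W.states_all h₁ h₂ α h0 h2
  · rcases le_total α 4 with h4 | h4
    · exact states_of_strict Pool.Agent.GC34.strict34 h₁ h₂ α h3 h4
    rcases le_total α 5 with h5 | h5
    · exact states_Icc (by norm_num) (by norm_num) h45 h₁ h₂ α h4 h5
    · exact states_Icc (by norm_num) (by norm_num) h56 h₁ h₂ α h5 h6

end Pool.Agent.Lib_helper45.G56
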