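import Pool.Agent.Lib_helper45.G56.All
import Pool.Agent.Lib_helper57.INT.Seven

/-!
# The shape of the hand-in with the integer exponents: `(0,4]`, `[5,6]` and `α = 7` (`8`, `9`)
-/

set_option autoImplicit false

namespace Pool.Agent.Lib_helper45.G56

open Pool.Agent.Lib_helper98.Renyi Pool.Agent.Lib_helper98.GC34

/-- the upper bound at one exponent, for all states -/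
def Upper (α : ℝ) : Prop :=
  ∀ {b₁ b₂ : Type} [Fintype b₁] [DecidableEq b₁] [Fintype b₂] [DecidableEq b₂]
    (σ₁ : Fin 2 → Matrix b₁ b₁ ℂ) (σ₂ : Fin 2 → Matrix b₂ b₂ ℂ),
    (∀ x, IsDensity (σ₁ x)) → (∀ x, IsDensity (σ₂ x)) → Hsum α σ₁ σ₂ ≤ Fval α σ₁ σ₂

theorem upper_seven : Upper 7 := fun σ₁ σ₂ h₁ h₂ =>
  Pool.Agent.Lib_helper57.INT.alpha_seven σ₁ σ₂ h₁ h₂

/-- `(0,2] ∪ [3,4] ∪ [5,6] ∪ {7}` and `[2,3]` -/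
theorem all7 (h56 : ∀ α : ℝ, 5 < α → α < 6 → Strict α)
    {b₁ b₂ : Type} [Fintype b₁] [DecidableEq b₁] [Fintype b₂] [DecidableEq b₂]
    (σ₁ : Fin 2 → Matrix b₁ b₁ ℂ) (σ₂ : Fin 2 → Matrix b₂ b₂ ℂ)
    (h₁ : ∀ x, IsDensity (σ₁ x)) (h₂ : ∀ x, IsDensity (σ₂ x)) (α : ℝ) :
    ((0 < α ∧ α ≤ 2) ∨ (3 ≤ α ∧ α ≤ 4) ∨ (5 ≤ α ∧ α ≤ 6) ∨ α = 7 →
        Hsum α σ₁ σ₂ ≤ Fval α σ₁ σ₂) ∧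
      (2 ≤ α ∧ α ≤ 3 → Fval α σ₁ σ₂ ≤ Hsum α σ₁ σ₂) := by
  obtain ⟨ha, hb⟩ := all_of_strict56 h56 σ₁ σ₂ h₁ h₂ α
  refine ⟨?_, hb⟩
  rintro (h | h | h | rfl)
  · exact ha (Or.inl h)
  · exact ha (Or.inr (Or.inl h))
  · exact ha (Or.inr (Or.inr h))
  · exact upper_seven σ₁ σ₂ h₁ h₂

/-- `(0,2] ∪ [3,4] ∪ [5,6] ∪ {7, 8}` and `[2,3]` -/
theorem all78 (h56 : ∀ α : ℝ, 5 < α → α < 6 → Strict α) (h8 : Upper 8)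
    {b₁ b₂ : Type} [Fintype b₁] [DecidableEq b₁] [Fintype b₂] [DecidableEq b₂]
    (σ₁ : Fin 2 → Matrix b₁ b₁ ℂ) (σ₂ : Fin 2 → Matrix b₂ b₂ ℂ)
    (h₁ : ∀ x, IsDensity (σ₁ x)) (h₂ : ∀ x, IsDensity (σ₂ x)) (α : ℝ) :
    ((0 < α ∧ α ≤ 2) ∨ (3 ≤ α ∧ α ≤ 4) ∨ (5 ≤ α ∧ α ≤ 6) ∨ α = 7 ∨ α = 8 →
        Hsum α σ₁ σ₂ ≤ Fval α σ₁ σ₂) ∧
      (2 ≤ α ∧ α ≤ 3 → Fval α σ₁ σ₂ ≤ Hsum α σ₁ σ₂) := by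
  obtain ⟨ha, hb⟩ := all7 h56 σ₁ σ₂ h₁ h₂ α
  refine ⟨?_, hb⟩
  rintro (h | h | h | h | rfl)
  · exact ha (Or.inl h)
  · exact ha (Or.inr (Or.inl h))
  · exact ha (Or.inr (Or.inr (Or.inl h)))
  · exact ha (Or.inr (Or.inr (Or.inr h)))
  · exact h8 σ₁ σ₂ h₁ h₂

/-- `(0,2] ∪ [3,4] ∪ [5,6] ∪ {7, 8, 9}` and `[2,3]` -/
theorem all789 (h56 : ∀ α : ℝ, 5 < α → α < 6 → Strict α) (h8 : Upper 8) (h9 : Upper 9)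
    {b₁ b₂ : Type} [Fintype b₁] [DecidableEq b₁] [Fintype b₂] [DecidableEq b₂]
    (σ₁ : Fin 2 → Matrix b₁ b₁ ℂ) (σ₂ : Fin 2 → Matrix b₂ b₂ ℂ)
    (h₁ : ∀ x, IsDensity (σ₁ x)) (h₂ : ∀ x, IsDensity (σ₂ x)) (α : ℝ) :
    ((0 < α ∧ α ≤ 2) ∨ (3 ≤ α ∧ α ≤ 4) ∨ (5 ≤ α ∧ α ≤ 6) ∨ α = 7 ∨ α = 8 ∨ α = 9 →
        Hsum α σ₁ σ₂ ≤ Fval α σ₁ σ₂) ∧
      (2 ≤ α ∧ α ≤ 3 → Fval α σ₁ σ₂ ≤ Hsum α σ₁ σ₂) := by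
  obtain ⟨ha, hb⟩ := all78 h56 h8 σ₁ σ₂ h₁ h₂ α
  refine ⟨?_, hb⟩
  rintro (h | h | h | h | h | rfl)
  · exact ha (Or.inl h)
  · exact ha (Or.inr (Or.inl h))
  · exact ha (Or.inr (Or.inr (Or.inl h)))
  · exact ha (Or.inr (Or.inr (Or.inr (Or.inl h))))
  · exact ha (Or.inr (Or.inr (Or.inr (Or.inr h))))
  · exact h9 σ₁ σ₂ h₁ h₂

end Pool.Agent.Lib_helper45.G56
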