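import Pool.Agent.Lib_helper98.GC34.Final

/-!
# From the inequality for strict pairs on an open interval of exponents to all states on the closed
interval
-/

set_option autoImplicit false

open scoped BigOperators ComplexOrder Kronecker MatrixOrder Topology
open MeasureTheory Set Matrix Filter

namespace Pool.Agent.Lib_helper45.G56

open Pool.Agent.RC Pool.Agent.Lib_helper98.Renyi Pool.Agent.Lib_helper98.GC34

variable {ι κ : Type} [Fintype ι] [DecidableEq ι] [Fintype κ] [DecidableEq κ]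

/-- all positive semidefinite pairs, the closed interval `[a,b]` -/
theorem psd_Icc {a b : ℝ} (ha : 0 < a) (hab : a < b)
    (hS : ∀ α : ℝ, a < α → α < b → Strict α) (α : ℝ) (h3 : a ≤ α) (h4 : α ≤ b)
    {A₁ D₁ : Matrix ι ι ℂ} (h₁ : IsPsdPair A₁ D₁) {A₂ D₂ : Matrix κ κ ℂ}
    (h₂ : IsPsdPair A₂ D₂) :
    G α A₁ D₁ * G α A₂ D₂ ≤ (2 ^ (α - 1) - 1) * G α (A₁ ⊗ₖ A₂) (D₁ ⊗ₖ D₂) := by
  have key : ∀ β : ℝ, a < β → β < b →
      G β A₁ D₁ * G β A₂ D₂ ≤ (2 ^ (β - 1) - 1) * G β (A₁ ⊗ₖ A₂) (D₁ ⊗ₖ D₂) :=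
    fun β hb3 hb4 => psd_of_strict (by linarith) (hS β hb3 hb4) h₁ h₂
  rcases eq_or_lt_of_le h3 with rfl | h3'
  · obtain ⟨t1, t2⟩ := tendsto_sides A₁ D₁ A₂ D₂ a ha (𝓝[>] a) nhdsWithin_le_nhds
    apply le_of_tendsto_of_tendsto t1 t2
    have hev : ∀ᶠ α : ℝ in 𝓝[>] a, α ∈ Ioo a b := Ioo_mem_nhdsGT hab
    filter_upwards [hev] with α hα
    exact key α hα.1 hα.2
  rcases eq_or_lt_of_le h4 with rfl | h4'
  · obtain ⟨t1, t2⟩ := tendsto_sides A₁ D₁ A₂ D₂ α (by linarith) (𝓝[<] α) nhdsWithin_le_nhds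
    apply le_of_tendsto_of_tendsto t1 t2
    have hev : ∀ᶠ β : ℝ in 𝓝[<] α, β ∈ Ioo a α := Ioo_mem_nhdsLT hab
    filter_upwards [hev] with β hβ
    exact key β hβ.1 hβ.2
  exact key α h3' h4'

/-- the entropies of all states on the closed interval `[a,b]`, `1 < a` -/
theorem states_Icc {a b : ℝ} (ha : 1 < a) (hab : a < b)
    (hS : ∀ α : ℝ, a < α → α < b → Strict α)
    {σ₁ : Fin 2 → Matrix ι ι ℂ} {σ₂ : Fin 2 → Matrix κ κ ℂ}
    (h₁ : ∀ x, IsDensity (σ₁ x)) (h₂ : ∀ x, IsDensity (σ₂ x)) (α : ℝ)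
    (h3 : a ≤ α) (h4 : α ≤ b) : Hsum α σ₁ σ₂ ≤ Fval α σ₁ σ₂ := by
  have h0 : 0 < α := by linarith
  have p₁ := psdPair_state h₁ h0
  have p₂ := psdPair_state h₂ h0
  apply Hsum_le_Fval h₁ h₂ h0 (by linarith)
  rw [p₁.Gfun_eq h0, p₂.Gfun_eq h0, (p₁.kron p₂).Gfun_eq h0]
  exact psd_Icc (by linarith) hab hS α h3 h4 p₁ p₂

end Pool.Agent.Lib_helper45.G56
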